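import Pool.Agent.W558.S.Base1
import Pool.Agent.W558.S.Stms
import Pool.Agent.W558.Add

set_option autoImplicit false
set_option linter.unusedVariables false

universe u

open Polynomial

namespace Pool.Agent.W440.RS

open Pool.Agent.W558

/-- In a Noetherian ring, colon ideals are contained in prime colon ideals. -/
lemma exists_prime_colon {A : Type*} [CommRing A] [IsNoetherianRing A] {a b : A} (h : ¬ b ∣ a) :
    ∃ (P : Ideal A) (c : A), P.IsPrime ∧ (∀ x, x ∈ P ↔ b ∣ x * c) ∧ ∀ x, b ∣ x * a → x ∈ P := by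
  let col : A → Ideal A := fun c =>
    { carrier := {x | b ∣ x * c}
      add_mem' := by
        intro x y hx hy
        change b ∣ (x + y) * c
        rw [add_mul]; exact dvd_add hx hy
      zero_mem' := by change b ∣ 0 * c; rw [zero_mul]; exact dvd_zero b
      smul_mem' := by
        intro r x hx
        change b ∣ r * x * c
        rw [mul_assoc]; exact Dvd.dvd.mul_left hx r }
  have hcol : ∀ c x, x ∈ col c ↔ b ∣ x * c := fun c x => Iff.rfl
  obtain ⟨P, ⟨c, hc, rfl, hac⟩, hmax⟩ := set_has_maximal_iff_noetherian.2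
    (inferInstance : IsNoetherian A A)
    {I : Ideal A | ∃ c, ¬ b ∣ c ∧ I = col c ∧ col a ≤ I} ⟨col a, a, h, rfl, le_rfl⟩
  refine ⟨col c, c, ?_, hcol c, fun x hx => hac hx⟩
  constructor
  · intro h1
    rw [Ideal.eq_top_iff_one, hcol, one_mul] at h1
    exact hc h1
  · intro x y hxy
    by_contra hn
    rw [not_or] at hn
    have h1 : ¬ b ∣ y * c := hn.2
    have h2 : col c ≤ col (y * c) := by
      intro z hz
      rw [hcol] at hz ⊢
      have : z * (y * c) = y * (z * c) := by ring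
      rw [this]; exact hz.mul_left y
    have h3 := hmax (col (y * c)) ⟨y * c, h1, rfl, hac.trans h2⟩
    have h4 : x ∈ col (y * c) := by
      rw [hcol, ← mul_assoc]; exact hxy
    exact h3 (lt_of_le_of_ne h2 (fun h5 => hn.1 (by rw [h5]; exact h4)))

section

variable {k E : Type u} [Field k] [Field E] [Algebra k E]

/-- The order of a function along a component of the boundary. -/
lemma exists_exp {A W : Subalgebra k E} (hA : Sf A) (hW : A ≤ W) {x g : E} (hx : x ∈ A)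
    (hx0 : x ≠ 0) (hnx : NU W x) (hp : ∀ a ∈ A, NU W a → ∃ b ∈ A, a = x * b) (hg : g ≠ 0) :
    ∃ n : ℤ, g * x ^ (-n) ∈ W ∧ (g * x ^ (-n))⁻¹ ∈ W := by
  have hsm := hA.sm
  have hft : Algebra.FiniteType k A := inferInstance
  have hN : IsNoetherianRing A := Algebra.FiniteType.isNoetherianRing k A
  have key : ∀ a ∈ A, a ≠ 0 → ∃ n : ℕ, ∃ a' ∈ A, a = x ^ n * a' ∧ a' ≠ 0 ∧ a'⁻¹ ∈ W := by
    intro a ha ha0
    have h0 : (⟨a, ha⟩ : A) ≠ 0 := fun h => ha0 (congrArg Subtype.val h)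
    have hu : ¬ IsUnit (⟨x, hx⟩ : A) := by
      intro h
      obtain ⟨y, hy⟩ := h.exists_right_inv
      exact hnx.2 y (hW y.2) (congrArg Subtype.val hy)
    obtain ⟨n, a', h1, h2⟩ := WfDvdMonoid.max_power_factor' h0 hu
    have h3 : ¬ NU W (a' : E) := by
      intro h
      obtain ⟨b, hb, h4⟩ := hp a' a'.2 h
      exact h1 ⟨⟨b, hb⟩, Subtype.ext h4⟩
    rw [not_NU_iff (hW a'.2)] at h3
    exact ⟨n, a', a'.2, congrArg Subtype.val h2, h3.1, h3.2⟩
  obtain ⟨a, ha, b, hb, hb0, rfl⟩ := hA.fr g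
  have ha0 : a ≠ 0 := fun h => hg (by rw [h, zero_mul])
  obtain ⟨n, a', ha', h1, h2, h3⟩ := key a ha ha0
  obtain ⟨m, b', hb', h4, h5, h6⟩ := key b hb hb0
  have e : a * b⁻¹ * x ^ (-((n : ℤ) - m)) = a' * b'⁻¹ := by
    rw [h1, h4, neg_sub, zpow_sub₀ hx0, zpow_natCast, zpow_natCast]
    field_simp
  refine ⟨(n : ℤ) - m, ?_, ?_⟩
  · rw [e]
    exact W.mul_mem (hW ha') h6
  · rw [e, mul_inv, inv_inv]
    exact W.mul_mem h3 (hW hb')

lemma inv_mem_of_not_NU {W : Subalgebra k E} {x : E} (hx : x ∈ W) (h : ¬ NU W x) : x⁻¹ ∈ W :=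
  ((not_NU_iff hx).1 h).2

/-- A function without poles outside of the boundary is a monomial times an element of the
chart. -/
lemma mem_main (hpar : S_par.{u}) (hfin : S_fin.{u}) [PerfectField k] (htr : Algebra.trdeg k E = 2)
    {I : Type} [Fintype I] {A : Subalgebra k E} (hA : Sf A) {x : I → E} (hxA : ∀ i, x i ∈ A)
    (hx0 : ∀ i, x i ≠ 0) (hsnc : SNC A x) {W : I → Subalgebra k E}
    (hirr : ∀ i, (x i)⁻¹ ∈ A ∨ (IsDv A (W i) ∧ NU (W i) (x i) ∧
      ∀ a ∈ A, NU (W i) a → ∃ b ∈ A, a = x i * b)) {g : E} (γ : I → ℤ)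
    (h1 : ∀ i, IsDv A (W i) → NU (W i) (x i) → (∀ a ∈ A, NU (W i) a → ∃ b ∈ A, a = x i * b) →
      g * x i ^ (-γ i) ∈ W i)
    (h2 : ∀ V, IsDv A V → (∃ i, NU V (x i)) ∨ g ∈ V) : g * ∏ i, x i ^ (-γ i) ∈ A := by
  classical
  have hsm := hA.sm
  have hft : Algebra.FiniteType k A := inferInstance
  have hN : IsNoetherianRing A := Algebra.FiniteType.isNoetherianRing k A
  set w := g * ∏ i, x i ^ (-γ i) with hw
  obtain ⟨a, ha, b, hb, hb0, hwab⟩ := hA.fr w
  by_contra hcon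
  have hba : w * b = a := by rw [hwab]; field_simp
  have hnd : ¬ (⟨b, hb⟩ : A) ∣ ⟨a, ha⟩ := by
    rintro ⟨c, hc⟩
    apply hcon
    have h3 : a = b * c := congrArg Subtype.val hc
    have h4 : w = c := by
      rw [hwab, h3]; field_simp
    rw [h4]
    exact c.2
  obtain ⟨P, c, hP, hPc, hPa⟩ := exists_prime_colon hnd
  have hbP : (⟨b, hb⟩ : A) ∈ P := by
    rw [hPc]
    exact dvd_mul_right _ _
  by_cases hm : P.IsMaximal
  · have hO := isPt_locAt (hq := hP) hm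
    obtain ⟨u, v, -, hu, hv, -, -, -, hp, -, -⟩ := hpar k E htr A (locAt A P hP) hA hO
    have huP : (⟨u, hu⟩ : A) ∈ P := (NU_locAt (hq := hP)).1 hp.pu
    have hvP : (⟨v, hv⟩ : A) ∈ P := (NU_locAt (hq := hP)).1 hp.pv
    obtain ⟨α, hα⟩ := (hPc _).1 huP
    obtain ⟨β, hβ⟩ := (hPc _).1 hvP
    have hα' : u * c = b * α := congrArg Subtype.val hα
    have hβ' : v * c = b * β := congrArg Subtype.val hβ
    have h3 : u * (β : E) = v * α := by
      apply mul_left_cancel₀ hb0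
      calc b * (u * (β : E)) = u * (b * β) := by ring
        _ = u * (v * c) := by rw [hβ']
        _ = v * (u * c) := by ring
        _ = v * (b * α) := by rw [hα']
        _ = b * (v * α) := by ring
    obtain ⟨d, hd, h4⟩ := hp.reg β (le_locAt β.2) α (le_locAt α.2) h3
    have h5 : (c : E) = b * d := by
      apply mul_left_cancel₀ hp.u0
      rw [hα', h4]; ring
    obtain ⟨r, s, hs, h6⟩ := hd
    apply hs
    rw [hPc]
    refine ⟨r, Subtype.ext ?_⟩
    change (s : E) * c = b * r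
    rw [h5, ← h6]; ring
  · have hP0 : P ≠ ⊥ := by
      intro h
      rw [h, Ideal.mem_bot] at hbP
      exact hb0 (congrArg Subtype.val hbP)
    have hDv := (hfin k E htr A hA).2.2.1 P hP hP0 hm
    set V := locAt A P hP with hV
    suffices hwV : w ∈ V by
      obtain ⟨r, s, hs, h3⟩ := hwV
      apply hs
      apply hPa
      refine ⟨r, Subtype.ext ?_⟩
      change (s : E) * a = b * r
      rw [← hba, ← h3]; ring
    by_cases hex : ∃ i, NU V (x i)
    · obtain ⟨i, hi⟩ := hex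
      have hcomp : ∀ j, NU V (x j) → IsDv A (W j) ∧ NU (W j) (x j) ∧
          (∀ a ∈ A, NU (W j) a → ∃ b ∈ A, a = x j * b) ∧ W j = V := by
        intro j hj
        rcases hirr j with h3 | ⟨h3, h4, h5⟩
        · exact absurd hj (not_NU_of_inv (hx0 j) (hDv.le h3))
        · refine ⟨h3, h4, h5, (hfin k E htr A hA).2.2.2 _ _ h3 hDv ?_⟩
          intro a ha hna
          obtain ⟨b, hb, rfl⟩ := h5 a ha hna
          exact hj.mul_right (hDv.le hb)
      obtain ⟨h3, h4, h5, h6⟩ := hcomp i hi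
      have hother : ∀ j, j ≠ i → ¬ NU V (x j) := by
        intro j hj hn
        obtain ⟨h3', h4', h5', h6'⟩ := hcomp j hn
        -- x j = x i * c
        obtain ⟨c, hc, h7⟩ := h5 (x j) (hxA j) (by rw [h6]; exact hn)
        have hl := isLocalRing_of_loc hDv.loc
        let L := IsLocalRing.ResidueField V
        let φ : A →ₐ[k] L := (IsScalarTower.toAlgHom k V L).comp (Subalgebra.inclusion hDv.le)
        have hφ : ∀ a : A, φ a = 0 ↔ NU V a := fun a => by
          change IsLocalRing.residue V ⟨a, hDv.le a.2⟩ = 0 ↔ _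
          rw [residue_eq_zero_NU]
        obtain ⟨D, hD1, hD2⟩ := hsnc L φ j (hxA j) ((hφ _).2 hn)
        have hD3 := hD2 i (hxA i) hj.symm ((hφ _).2 hi)
        have h8 : (⟨x j, hxA j⟩ : A) = ⟨x i, hxA i⟩ * ⟨c, hc⟩ := Subtype.ext h7
        rw [h8, D.leib, hD3, (hφ ⟨x i, hxA i⟩).2 hi, zero_mul, mul_zero, add_zero] at hD1
        exact zero_ne_one hD1
      have h7 := h1 i h3 h4 h5
      rw [h6] at h7
      have h8 : w = g * x i ^ (-γ i) * ∏ j ∈ Finset.univ.erase i, x j ^ (-γ j) := by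
        rw [hw, mul_assoc, Finset.mul_prod_erase Finset.univ (fun j => x j ^ (-γ j))
          (Finset.mem_univ i)]
      rw [h8]
      refine V.mul_mem h7 (V.prod_mem ?_)
      intro j hj
      have hji : j ≠ i := Finset.ne_of_mem_erase hj
      exact zpow_mem_of (hDv.le (hxA j))
        (Or.inr (inv_mem_of_not_NU (hDv.le (hxA j)) (hother j hji)))
    · rcases h2 V hDv with h3 | h3
      · exact absurd h3 hex
      · push Not at hex
        rw [hw]
        refine V.mul_mem h3 (V.prod_mem ?_)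
        intro j hj
        exact zpow_mem_of (hDv.le (hxA j))
          (Or.inr (inv_mem_of_not_NU (hDv.le (hxA j)) (hex j)))

end

theorem main (hpar : S_par.{u}) (hfin : S_fin.{u}) (hchain : S_chain.{u}) : S_fn.{u} := by
  classical
  intro k E _ _ _ _ htr s G g hg hW
  have hprin : ∀ t i, (s.M.x t i)⁻¹ ∈ s.M.A t ∨ (IsDv (s.M.A t) (s.W i) ∧ NU (s.W i) (s.M.x t i) ∧
      ∀ a ∈ s.M.A t, NU (s.W i) a → ∃ b ∈ s.M.A t, a = s.M.x t i * b) := s.irr
  have hex : ∀ b i, ∃ n : ℤ, ∀ t, IsDv (s.M.A t) (s.W i) → NU (s.W i) (s.M.x t i) →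
      (∀ a ∈ s.M.A t, NU (s.W i) a → ∃ b ∈ s.M.A t, a = s.M.x t i * b) →
      g b * s.M.x t i ^ (-n) ∈ s.W i ∧ (g b * s.M.x t i ^ (-n))⁻¹ ∈ s.W i := by
    intro b i
    by_cases h : ∃ t, IsDv (s.M.A t) (s.W i) ∧ NU (s.W i) (s.M.x t i) ∧
      (∀ a ∈ s.M.A t, NU (s.W i) a → ∃ b ∈ s.M.A t, a = s.M.x t i * b)
    · obtain ⟨t, h1, h2, h3⟩ := h
      obtain ⟨n, h4, h5⟩ := exists_exp (s.sf t) h1.le (s.M.xA t i) (s.M.x0 t i) h2 h3 (hg b)
      refine ⟨n, ?_⟩
      intro t' h1' h2' h3'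
      have h6 := s.M.ratio h1.le h1'.le i
      have h7 := s.M.ratio h1'.le h1.le i
      have hx0 := s.M.x0 t i
      have hx0' := s.M.x0 t' i
      have e : g b * s.M.x t' i ^ (-n) = g b * s.M.x t i ^ (-n) *
          (s.M.x t' i / s.M.x t i) ^ (-n) := by
        rw [mul_assoc, ← mul_zpow, mul_div_cancel₀ _ hx0]
      have h8 : (s.M.x t' i / s.M.x t i) ^ (-n) ∈ s.W i :=
        zpow_mem_of h6 (Or.inr (by rw [inv_div]; exact h7))
      have h9 : ((s.M.x t' i / s.M.x t i) ^ (-n))⁻¹ ∈ s.W i := by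
        rw [← zpow_neg]
        exact zpow_mem_of h6 (Or.inr (by rw [inv_div]; exact h7))
      rw [e]
      refine ⟨(s.W i).mul_mem h4 h8, ?_⟩
      rw [mul_inv]
      exact (s.W i).mul_mem h5 h9
    · exact ⟨0, fun t h1 h2 h3 => absurd ⟨t, h1, h2, h3⟩ h⟩
  choose Γ hΓ using hex
  refine ⟨Γ, ?_⟩
  intro b t
  have hbd : ∀ V, IsDv (s.M.A t) V → (∃ i, NU V (s.M.x t i)) ∨ (g b ∈ V ∧ (g b)⁻¹ ∈ V) := by
    intro V hV
    rcases hW V ⟨t, hV⟩ with ⟨t', i, h1, h2⟩ | h1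
    · exact Or.inl ⟨i, (s.M.nu_iff hV.le h1.le i).2 h2⟩
    · exact Or.inr (h1 b)
  have hprod0 : ∏ i, s.M.x t i ^ Γ b i ≠ 0 :=
    Finset.prod_ne_zero_iff.2 fun i _ => zpow_ne_zero _ (s.M.x0 t i)
  have hpi : ∏ i, s.M.x t i ^ (-Γ b i) = (∏ i, s.M.x t i ^ Γ b i)⁻¹ := by
    rw [← Finset.prod_inv_distrib]
    exact Finset.prod_congr rfl fun i _ => zpow_neg _ _
  have hm1 : g b * ∏ i, s.M.x t i ^ (-Γ b i) ∈ s.M.A t := by
    refine mem_main hpar hfin htr (s.sf t) (s.M.xA t) (s.M.x0 t) (s.M.snc t) (hprin t) (Γ b) ?_ ?_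
    · intro i h1 h2 h3
      exact (hΓ b i t h1 h2 h3).1
    · intro V hV
      exact (hbd V hV).imp id And.left
  have hm2 : (g b)⁻¹ * ∏ i, s.M.x t i ^ (-(-Γ b i)) ∈ s.M.A t := by
    refine mem_main hpar hfin htr (s.sf t) (s.M.xA t) (s.M.x0 t) (s.M.snc t) (hprin t)
      (fun i => -Γ b i) ?_ ?_
    · intro i h1 h2 h3
      have h4 := (hΓ b i t h1 h2 h3).2
      rw [mul_inv, ← zpow_neg] at h4
      exact h4
    · intro V hV
      exact (hbd V hV).imp id And.right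
  refine ⟨g b * ∏ i, s.M.x t i ^ (-Γ b i), ?_, hm1, ?_, ?_⟩
  · rw [hpi]
    exact mul_ne_zero (hg b) (inv_ne_zero hprod0)
  · rw [hpi, mul_inv, inv_inv]
    simpa only [neg_neg] using hm2
  · rw [hpi, mul_assoc, inv_mul_cancel₀ hprod0, mul_one]

end Pool.Agent.W440.RS
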